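import Pool.Agent.Y206.Q.Stm

set_option autoImplicit false

/-!
# A homogeneous ideal with two generators has two homogeneous generators
-/

namespace Pool.Agent.Y31.QG

open MvPolynomial H503R3.QCI

variable {σ : Type} {K : Type} [Field K]

/-- the leading part of a component of a product -/
lemma comp_mod (J : Ideal (MvPolynomial σ K)) (u f : MvPolynomial σ K) (d : ℕ)
    (h : ∀ j < d, homogeneousComponent j f ∈ J) :
    homogeneousComponent d (f * u) - homogeneousComponent d f * C (coeff 0 u) ∈ J := by
  classical
  have e : ∀ j ∈ Finset.range (f.totalDegree + 1),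
      homogeneousComponent d (homogeneousComponent j f * u) -
        (if j = d then homogeneousComponent d f * C (coeff 0 u) else 0) ∈ J := by
    intro j _
    rcases lt_trichotomy j d with hj | hj | hj
    · obtain ⟨k, rfl⟩ := Nat.exists_eq_add_of_lt hj
      rw [if_neg (by omega), sub_zero, add_assoc,
        comp_mul (homogeneousComponent_isHomogeneous j f)]
      exact Ideal.mul_mem_right _ _ (h j (by omega))
    · subst hj
      rw [if_pos rfl]
      have h1 := comp_mul (v := u) (k := 0) (homogeneousComponent_isHomogeneous j f)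
      rw [add_zero] at h1
      rw [h1, homogeneousComponent_zero, sub_self]
      exact zero_mem _
    · rw [if_neg (by omega), sub_zero,
        comp_mul_of_lt (homogeneousComponent_isHomogeneous j f) hj]
      exact zero_mem _
  have e2 := Ideal.sum_mem J e
  rw [Finset.sum_sub_distrib] at e2
  have e3 : ∑ j ∈ Finset.range (f.totalDegree + 1),
      homogeneousComponent d (homogeneousComponent j f * u) = homogeneousComponent d (f * u) := by
    rw [← map_sum, ← Finset.sum_mul, sum_homogeneousComponent]
  rw [e3, Finset.sum_ite_eq'] at e2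
  split_ifs at e2 with hd
  · exact e2
  · rw [homogeneousComponent_eq_zero d f (by simpa using hd), zero_mul]
    exact e2

/-- the component of a multiple of a homogeneous element -/
lemma comp_hom {f u : MvPolynomial σ K} {d : ℕ} (hf : f.IsHomogeneous d) :
    homogeneousComponent d (f * u) = f * C (coeff 0 u) := by
  have h1 := comp_mul (v := u) (k := 0) hf
  rw [add_zero, homogeneousComponent_zero] at h1
  exact h1

lemma le_of_comp {I J : Ideal (MvPolynomial σ K)} (hI : Homog I)
    (h : ∀ (d : ℕ) (f : MvPolynomial σ K), f.IsHomogeneous d → f ∈ I → f ∈ J) : I ≤ J := by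
  intro f hf
  rw [← sum_homogeneousComponent f]
  exact Ideal.sum_mem _ fun i _ => h i _ (homogeneousComponent_isHomogeneous i f) (hI f hf i)

lemma core {F G F' u v : MvPolynomial σ K} (hI : Homog (Ideal.span {F, G})) {a : ℕ}
    (hF' : F'.IsHomogeneous a) (huv : F' = u * F + v * G) (hu : coeff 0 u ≠ 0) :
    ∃ (b : ℕ) (G' : MvPolynomial σ K), G'.IsHomogeneous b ∧
      Ideal.span {F', G'} = Ideal.span {F, G} := by
  classical
  set I : Ideal (MvPolynomial σ K) := Ideal.span {F, G} with hIdef
  have hFI : F ∈ I := Ideal.subset_span (by simp)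
  have hGI : G ∈ I := Ideal.subset_span (by simp)
  have hF'I : F' ∈ I := by
    rw [huv]
    exact add_mem (Ideal.mul_mem_left _ _ hFI) (Ideal.mul_mem_left _ _ hGI)
  have hPh : Homog (Ideal.span {F'}) := homog_span (by
    intro x hx
    rw [Set.mem_singleton_iff] at hx
    exact ⟨a, hx ▸ hF'⟩)
  have hcancel : ∀ (J : Ideal (MvPolynomial σ K)) (x : MvPolynomial σ K) (c : K), c ≠ 0 →
      x * C c ∈ J → x ∈ J := by
    intro J x c hc h
    have h1 := Ideal.mul_mem_right (C c⁻¹) J h
    rw [mul_assoc, ← C_mul, mul_inv_cancel₀ hc, C_1, mul_one] at h1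
    exact h1
  by_cases hall : ∀ (d : ℕ) (f : MvPolynomial σ K), f.IsHomogeneous d → f ∈ I →
      f ∈ Ideal.span {F'}
  · refine ⟨0, 0, isHomogeneous_zero _ _ _, ?_⟩
    apply le_antisymm
    · rw [Ideal.span_le]
      rintro x (rfl | rfl)
      · exact hF'I
      · exact I.zero_mem
    · refine (le_of_comp hI hall).trans ?_
      apply Ideal.span_mono
      intro x hx
      exact Or.inl hx
  · have hex : ∃ d : ℕ, ∃ f : MvPolynomial σ K, f.IsHomogeneous d ∧ f ∈ I ∧
        f ∉ Ideal.span {F'} := by
      push Not at hall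
      exact hall
    obtain ⟨G', hG', hG'I, hG'n⟩ := Nat.find_spec hex
    set b := Nat.find hex with hb
    have hlow : ∀ j < b, ∀ f : MvPolynomial σ K, f ∈ I →
        homogeneousComponent j f ∈ Ideal.span {F'} := by
      intro j hj f hf
      by_contra h
      exact Nat.find_min hex hj ⟨_, homogeneousComponent_isHomogeneous j f, hI f hf j, h⟩
    obtain ⟨al, be, hab⟩ := Ideal.mem_span_pair.1 hG'I
    obtain ⟨ga, hga⟩ : ∃ ga, ga = u * be - al * v := ⟨_, rfl⟩
    have key : G' * u = F' * al + G * ga := by
      rw [← hab, hga, huv]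
      ring
    have hga0 : coeff 0 ga ≠ 0 := by
      intro h0
      apply hG'n
      apply hcancel _ _ _ hu
      have h1 := comp_mod (Ideal.span {F'}) ga G b fun j hj => hlow j hj G hGI
      rw [h0, C_0, mul_zero, sub_zero] at h1
      have h2 := hPh (F' * al) (Ideal.mul_mem_right _ _ (Ideal.subset_span rfl)) b
      have h3 := add_mem h2 h1
      rw [← map_add, ← key, comp_hom hG'] at h3
      exact h3
    refine ⟨b, G', hG', ?_⟩
    set J : Ideal (MvPolynomial σ K) := Ideal.span {F', G'} with hJ
    have hF'J : F' ∈ J := Ideal.subset_span (by simp)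
    have hG'J : G' ∈ J := Ideal.subset_span (by simp)
    have hJh : Homog J := homog_span (by
      rintro x (rfl | rfl)
      · exact ⟨a, hF'⟩
      · exact ⟨b, hG'⟩)
    have h1 : G * ga ∈ J := by
      have e : G * ga = G' * u - F' * al := by rw [key]; ring
      rw [e]
      exact sub_mem (Ideal.mul_mem_right _ _ hG'J) (Ideal.mul_mem_right _ _ hF'J)
    have h2 : F * (u * ga) ∈ J := by
      have e : F * (u * ga) = F' * ga - (G * ga) * v := by rw [huv]; ring
      rw [e]
      exact sub_mem (Ideal.mul_mem_right _ _ hF'J) (Ideal.mul_mem_right _ _ h1)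
    apply le_antisymm
    · rw [hJ, Ideal.span_le]
      rintro x (rfl | rfl)
      · exact hF'I
      · exact hG'I
    · refine le_of_comp hI ?_
      intro d f hf hfI
      obtain ⟨x, y, hxy⟩ := Ideal.mem_span_pair.1 hfI
      apply hcancel _ _ (coeff 0 (u * ga))
      · have e : coeff 0 (u * ga) = coeff 0 u * coeff 0 ga := by
          have := map_mul (constantCoeff (σ := σ) (R := K)) u ga
          simpa [constantCoeff_eq] using this
        rw [e]
        exact mul_ne_zero hu hga0
      rw [← comp_hom hf]
      apply hJh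
      have e : f * (u * ga) = (F * (u * ga)) * x + (G * ga) * (u * y) := by
        rw [← hxy]
        ring
      rw [e]
      exact add_mem (Ideal.mul_mem_right _ _ h2) (Ideal.mul_mem_right _ _ h1)

theorem hom : Pool.Agent.Y206.Q.S_HOM := by
  classical
  intro n F G hI
  set I : Ideal (MvPolynomial (Fin n) ℂ) := Ideal.span {F, G} with hIdef
  by_cases hz : ∀ (d : ℕ) (f : MvPolynomial (Fin n) ℂ), f.IsHomogeneous d → f ∈ I → f = 0
  · refine ⟨0, 0, 0, 0, isHomogeneous_zero _ _ _, isHomogeneous_zero _ _ _, ?_⟩
    apply le_antisymm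
    · rw [Ideal.span_le]
      rintro x (rfl | rfl)
      · exact I.zero_mem
      · exact I.zero_mem
    · refine le_of_comp hI ?_
      intro d f hf hfI
      rw [hz d f hf hfI]
      exact zero_mem _
  · have hex : ∃ d : ℕ, ∃ f : MvPolynomial (Fin n) ℂ, f.IsHomogeneous d ∧ f ∈ I ∧ f ≠ 0 := by
      push Not at hz
      exact hz
    obtain ⟨F', hF', hF'I, hF'0⟩ := Nat.find_spec hex
    set a := Nat.find hex with ha
    have hlow : ∀ f : MvPolynomial (Fin n) ℂ, f ∈ I → ∀ j < a,
        homogeneousComponent j f ∈ (⊥ : Ideal (MvPolynomial (Fin n) ℂ)) := by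
      intro f hf j hj
      rw [Ideal.mem_bot]
      by_contra h
      exact Nat.find_min hex hj ⟨_, homogeneousComponent_isHomogeneous j f, hI f hf j, h⟩
    have hFI : F ∈ I := Ideal.subset_span (by simp)
    have hGI : G ∈ I := Ideal.subset_span (by simp)
    obtain ⟨u, v, huv⟩ := Ideal.mem_span_pair.1 hF'I
    have h1 := comp_mod ⊥ u F a (hlow F hFI)
    have h2 := comp_mod ⊥ v G a (hlow G hGI)
    rw [Ideal.mem_bot, sub_eq_zero] at h1 h2
    have h3 : F' = homogeneousComponent a (F * u) + homogeneousComponent a (G * v) := by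
      rw [← map_add, mul_comm F u, mul_comm G v, huv, homogeneousComponent_of_mem hF', if_pos rfl]
    rw [h1, h2] at h3
    by_cases hu : coeff 0 u = 0
    · have hv : coeff 0 v ≠ 0 := by
        intro hv
        apply hF'0
        rw [h3, hu, hv, C_0, mul_zero, mul_zero, add_zero]
      have hsw : Ideal.span {F, G} = Ideal.span {G, F} := by rw [Set.pair_comm]
      have hI' : Homog (Ideal.span {G, F}) := by
        rw [← hsw]
        exact hI
      obtain ⟨b, G', hG', hGG⟩ := core hI' hF' (u := v) (v := u) (by rw [← huv]; ring) hv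
      refine ⟨a, b, F', G', hF', hG', ?_⟩
      rw [hGG, ← hsw]
    · obtain ⟨b, G', hG', hGG⟩ := core hI hF' (u := u) (v := v) huv.symm hu
      exact ⟨a, b, F', G', hF', hG', hGG⟩

end Pool.Agent.Y31.QG
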